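import Mathlib
import Pool.Agent.H474R2.LP.Final
import Pool.Agent.H474R3.AA.Iface

/-!
Project LPAA (helper474): for almost all reduced classes b mod q, a positive proportion of any J
disjoint sets of at most C (phi(q)/q) log q integers k has only composite b + k q.
-/

set_option autoImplicit false

open Finset

namespace Pool.Agent.H474R4.LP

open Classical in
/-- LP1: one of J0 sets is free of primes, for all but few classes -/
def LPCore : Prop := ∀ (C ε : ℝ), 0 < ε → ∃ J0 : ℕ, 1 ≤ J0 ∧ ∃ q₀ : ℕ, ∀ q : ℕ, q₀ ≤ q →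
  ∀ A : Fin J0 → Finset ℕ, (∀ i j, i ≠ j → Disjoint (A i) (A j)) →
  (∀ i, ∀ k ∈ A i, (k : ℝ) ≤ (q : ℝ) ^ C) →
  (∀ i, ((A i).card : ℝ) ≤ C * ((q.totient : ℝ) / q * Real.log q)) →
  (((range q).filter (fun b : ℕ => b.Coprime q ∧ ∀ i, ∃ k ∈ A i, (b + k * q).Prime)).card : ℝ) ≤
    ε * q.totient

open Classical in
/-- LP2: a positive proportion of the J sets is free of primes, for all but few classes -/
def LPDens : Prop := ∀ (C ε : ℝ), 0 < ε → ∃ c : ℝ, 0 < c ∧ ∃ J₀ : ℕ, ∀ J : ℕ, J₀ ≤ J →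
  ∃ q₀ : ℕ, ∀ q : ℕ, q₀ ≤ q →
  ∀ A : Fin J → Finset ℕ, (∀ i j, i ≠ j → Disjoint (A i) (A j)) →
  (∀ i, ∀ k ∈ A i, (k : ℝ) ≤ (q : ℝ) ^ C) →
  (∀ i, ((A i).card : ℝ) ≤ C * ((q.totient : ℝ) / q * Real.log q)) →
  (((range q).filter (fun b : ℕ => b.Coprime q ∧
    (((univ : Finset (Fin J)).filter (fun i => ∀ k ∈ A i, ¬ (b + k * q).Prime)).card : ℝ) <
      c * J)).card : ℝ) ≤ ε * q.totient

end Pool.Agent.H474R4.LP
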