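import Mathlib
import Pool.Agent.H474R4.LP.Iface
import Pool.Agent.H474R3.AA.MertP

/-!
LP1: for all but few reduced classes one of J0 sets of positions is free of primes (helper92).
-/

set_option autoImplicit false

open Finset Filter

namespace Pool.Agent.H474R4.LP

namespace LP1

open Pool.Agent.H410R2.AC Pool.Agent.H410R2.EN Pool.Agent.H747R2.EN6 Pool.Agent.H474R2.LP

lemma dl_eq (q : ℕ) (P U : Finset ℕ) :
    Pool.Agent.H474R2.GE.dl (ee q) (fun p k => {rr q p k}) P U =
      Pool.Agent.H410R2.EN.dl (ee q) (rr q) P U := by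
  unfold Pool.Agent.H474R2.GE.dl Pool.Agent.H410R2.EN.dl
  congr 2
  apply Finset.filter_congr
  intro p _
  simp only [Finset.disjoint_singleton, Finset.mem_singleton, not_not]
  constructor
  · rintro (h | ⟨a, ha, h⟩)
    · exact Or.inl h
    · exact Or.inr ⟨a, ha, h.symm⟩
  · rintro (h | ⟨a, ha, h⟩)
    · exact Or.inl h
    · exact Or.inr ⟨a, ha, h.symm⟩

lemma hit (q : ℕ) (P B : Finset ℕ) (hP : ∀ p ∈ P, 0 < p) :
    Pool.Agent.H474R2.GE.Hit 1 (fun p k => {rr q p k}) (fun p => (p : ℝ)) P B := by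
  intro p hp a _
  refine ⟨?_, ?_, ?_, ?_⟩
  · intro x hx
    rw [Finset.mem_singleton] at hx
    rw [Finset.mem_range, hx]
    exact rr_lt (hP p hp) a
  · simp
  · simp
  · simp

/-- the error for the empty set of primes -/
lemma err_le {κ : ℕ → ℕ → ℝ} {w : ℕ → ℝ} {M : ℕ} {A : ℝ} {P : Finset ℕ} {D0 : ℕ}
    {err : Finset ℕ → ℝ} (K : ℕ) (hP : ∀ p ∈ P, 0 < p) (hD : 1 ≤ D0)
    (h : Equid κ w M A P D0 err) :
    |∑ m ∈ range M, w m - A| ≤ err ∅ ∧ err ∅ ≤ ET K P D0 err := by
  constructor
  · have := h ∅ (Finset.empty_subset _) (by simpa using hD) (fun _ => 0) (by simp)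
    simpa using this
  · unfold ET
    have h1 := Finset.single_le_sum
      (s := P.powerset.filter (fun T : Finset ℕ => ∏ p ∈ T, p ≤ D0))
      (f := fun T => (K : ℝ) ^ T.card * err T) (fun T hT => by
        rw [Finset.mem_filter, Finset.mem_powerset] at hT
        have h2 := h T hT.1 hT.2 (fun _ => 0) (fun p hp => hP p (hT.1 hp))
        have h3 : 0 ≤ err T := (abs_nonneg _).trans h2
        positivity) (a := ∅) (by
        rw [Finset.mem_filter]
        exact ⟨Finset.empty_mem_powerset _, by simpa using hD⟩)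
    simpa using h1

lemma sum_S (q H : ℕ) (A : Finset ℕ) :
    ∑ b ∈ range (primorial H), (A.filter (fun k => Nat.Coprime (b + k * q) (primorial H))).card =
      A.card * (primorial H).totient := by
  simp_rw [Finset.card_filter]
  rw [Finset.sum_comm]
  simp_rw [← Finset.card_filter]
  have h : ∀ k ∈ A,
      ((range (primorial H)).filter (fun b => Nat.Coprime (b + k * q) (primorial H))).card =
        (primorial H).totient := by
    intro k _
    rw [← count_coprime_int (primorial H) (-((k : ℤ) * q)) (primorial_pos _)]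
    congr 1
    refine Finset.filter_congr fun b _ => ?_
    rw [← Nat.isCoprime_iff_coprime]
    push_cast
    rw [sub_neg_eq_add]
  rw [Finset.sum_congr rfl h, Finset.sum_const, smul_eq_mul]

/-- the average over the classes -/
lemma avg (q H : ℕ) (A : Finset ℕ) (C : ℝ) (hC : 0 ≤ C) (hq : 0 < q) (hl : 0 < Real.log q)
    (hA : (A.card : ℝ) ≤ C * ((q.totient : ℝ) / q * Real.log q)) :
    ∑ b ∈ G0 q H, ((A.filter (fun k => Nat.Coprime (b + k * q) (primorial H))).card : ℝ) *
      Real.log H ≤ C * Real.log q * ((G0 q H).card : ℝ) := by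
  have hlog : 0 ≤ Real.log H := Real.log_natCast_nonneg H
  have hφ : (0 : ℝ) ≤ (q.totient : ℝ) / q := by positivity
  have h3 : ((primorial H).totient : ℝ) * Real.log H ≤ primorial H := by
    rw [← Pool.Agent.H647R2.ACNT.totient_primorial H]
    exact mul_le_mul_of_nonneg_left (log_le_Pi1 H) (Nat.cast_nonneg _)
  have h4 : ∑ b ∈ G0 q H, ((A.filter (fun k => Nat.Coprime (b + k * q) (primorial H))).card : ℝ) *
      Real.log H ≤ ∑ b ∈ range (primorial H),
        ((A.filter (fun k => Nat.Coprime (b + k * q) (primorial H))).card : ℝ) * Real.log H := by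
    refine Finset.sum_le_sum_of_subset_of_nonneg (Finset.filter_subset _ _) fun b _ _ => ?_
    exact mul_nonneg (Nat.cast_nonneg _) hlog
  refine h4.trans ?_
  have h5 : ∑ b ∈ range (primorial H),
      ((A.filter (fun k => Nat.Coprime (b + k * q) (primorial H))).card : ℝ) * Real.log H =
      (A.card : ℝ) * ((primorial H).totient : ℝ) * Real.log H := by
    rw [← Finset.sum_mul]
    congr 1
    exact_mod_cast sum_S q H A
  rw [h5]
  have h6 := totient_mul_le_G0 q H hq
  calc (A.card : ℝ) * ((primorial H).totient : ℝ) * Real.log H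
      = (A.card : ℝ) * (((primorial H).totient : ℝ) * Real.log H) := by ring
    _ ≤ (C * ((q.totient : ℝ) / q * Real.log q)) * (((primorial H).totient : ℝ) * Real.log H) :=
        mul_le_mul_of_nonneg_right hA (by positivity)
    _ = C * Real.log q * (((q.totient : ℝ) / q) * (((primorial H).totient : ℝ) * Real.log H)) := by
        ring
    _ ≤ C * Real.log q * (((q.totient : ℝ) / q) * primorial H) := by
        refine mul_le_mul_of_nonneg_left ?_ (by positivity)
        exact mul_le_mul_of_nonneg_left h3 hφ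
    _ ≤ _ := mul_le_mul_of_nonneg_left h6 (by positivity)

end LP1

open Pool.Agent.H410R2.AC Pool.Agent.H410R2.EN Pool.Agent.H747R2.EN6 Pool.Agent.H474R2.LP in
/-- LP1, file Core.lean -/
theorem lpCore_of (hcore : Pool.Agent.H474R3.AA.CoreAA) (hCM : Pool.Agent.H474R3.AA.ClassMarkov) :
    LPCore := by
  intro C0 ε0 hε0
  set C : ℝ := max C0 1 with hCdef
  have hC1 : 1 ≤ C := le_max_right _ _
  have hCC : C0 ≤ C := le_max_left _ _
  set ε' : ℝ := ε0 / 8 with hε'def
  have hε' : 0 < ε' := by positivity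
  obtain ⟨Cm, hCm1, hmert⟩ := Pool.Agent.H474R3.AA.mertP
  set C6 : ℝ := 2 * C / ε' + (C + 3) + Cm with hC6
  have hfrac : 0 < 2 * C / ε' := by positivity
  obtain ⟨J1, hJ1, K, hK, X0, hX0⟩ := hcore 1 C6 (1 / 10) ε' le_rfl (by rw [hC6]; linarith)
    (by norm_num) (by norm_num) hε'
  refine ⟨2 * J1, by omega, ?_⟩
  have hmC : (C + 1 : ℝ) ≤ ⌈C + 1⌉₊ := Nat.le_ceil _
  have hmpos : 1 ≤ ⌈C + 1⌉₊ := Nat.one_le_iff_ne_zero.2 (by
    intro h
    rw [h] at hmC
    norm_num at hmC
    linarith)
  set K' : ℕ := K * ⌈C + 1⌉₊ with hK'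
  have hK'1 : 1 ≤ K' := Nat.mul_pos (by omega) (by omega)
  have hKK' : K ≤ K' := Nat.le_mul_of_pos_right _ (by omega)
  have hK'C : (K : ℝ) ^ 2 * (C + 1) ≤ (K' : ℝ) ^ 2 := by
    rw [hK']
    push_cast
    have h1 : (1 : ℝ) ≤ (⌈C + 1⌉₊ : ℝ) := by exact_mod_cast hmpos
    have h2 : (C + 1 : ℝ) ≤ (⌈C + 1⌉₊ : ℝ) ^ 2 := by nlinarith
    rw [mul_pow]
    exact mul_le_mul_of_nonneg_left h2 (sq_nonneg _)
  obtain ⟨q₀, hq₀⟩ := eventually_atTop.1 (asympQ C (4 * ε') (by positivity) K' hK'1 X0)
  refine ⟨q₀, fun q hq A hdisj hAsize' hAcard' => ?_⟩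
  obtain ⟨b1, b2, b3, b4, b5, b6, b7, b8, b9, b10, b11⟩ := hq₀ q hq
  have hq0 : 0 < q := by omega
  have hqr : (0 : ℝ) < q := by exact_mod_cast hq0
  have hq1 : (1 : ℝ) ≤ q := by exact_mod_cast hq0
  have hlog : 0 < Real.log q := by linarith
  have hφ0 : (0 : ℝ) ≤ (q.totient : ℝ) / q := by positivity
  have hAsize : ∀ i, ∀ k ∈ A i, (k : ℝ) ≤ (q : ℝ) ^ C := fun i k hk =>
    (hAsize' i k hk).trans (Real.rpow_le_rpow_of_exponent_le hq1 hCC)
  have hAcard : ∀ i, ((A i).card : ℝ) ≤ C * ((q.totient : ℝ) / q * Real.log q) := fun i =>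
    (hAcard' i).trans (mul_le_mul_of_nonneg_right hCC (by positivity))
  set H := HH q with hH
  set z := zz q with hz
  set Q := primorial H with hQ
  have hQ0 : 0 < Q := primorial_pos _
  have hQ0' : (0 : ℝ) < Q := by exact_mod_cast hQ0
  have hHH := HH_le q
  rw [← hH] at hHH
  have hHq : Real.log H ≤ Real.log q := by
    have h1 : (H : ℝ) ≤ q := by
      have := Real.log_le_sub_one_of_pos hqr
      linarith
    have h2 : (0 : ℝ) < H := by exact_mod_cast (by omega : 0 < H)
    exact Real.log_le_log h2 h1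
  have hVD : 1 / 2 ≤ VD q H := VD_ge q H hq0 (by omega) b8
  have hAA : (q : ℝ) / Q / 2 ≤ AA q H := by
    unfold AA
    have : 0 ≤ (q : ℝ) / Q := by positivity
    nlinarith
  have hAA0 : 0 < AA q H := by
    refine lt_of_lt_of_le ?_ hAA
    positivity
  have hPe : (PP H z).erase 0 = PP H z :=
    Finset.erase_eq_of_notMem fun h => Nat.not_prime_zero (PP_prime h)
  have hPpos : ∀ p ∈ PP H z, 0 < p := fun p hp => (PP_prime hp).pos
  -- the classes
  obtain ⟨G, hGR, hGcard, hGgood⟩ := hCM (G0 q H) J1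
    (fun j b => (((A j).filter (fun k => Nat.Coprime (b + k * q) Q)).card : ℝ) * Real.log H)
    (C * Real.log q) ε' (by omega) (by positivity) hε'
    (fun j b _ => mul_nonneg (Nat.cast_nonneg _) (Real.log_natCast_nonneg H))
    (fun j => LP1.avg q H (A j) C (by linarith) hq0 hlog (hAcard j))
  -- ET
  have hET : ET K (PP H z) z (fun _ => (2 : ℝ) ^ (DD q H).card) ≤ AA q H / Real.log q ^ K := by
    refine (etQ_le K H z z _ (by positivity) (hKK'.trans b3)).trans ?_
    refine le_trans (mul_le_mul_of_nonneg_right (two_pow_DD q H hq0 b4) (by positivity)) ?_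
    refine b6.trans ?_
    refine (div_le_div_of_nonneg_right hAA (by positivity)).trans ?_
    exact div_le_div_of_nonneg_left hAA0.le (by positivity) (pow_le_pow_right₀ b11 hKK')
  have hz1 : 1 ≤ z := by omega
  -- total mass of a class
  have htotal : ∀ b ∈ G0 q H, ∑ m ∈ range q, ww q H b m ≤ 2 * AA q H := by
    intro b hb
    have h1 := LP1.err_le K hPpos hz1 (equidQ q H z z b hq0 hb)
    have h2 := (abs_le.1 h1.1).2
    have h3 : AA q H / Real.log q ^ K ≤ AA q H := div_le_self hAA0.le (one_le_pow₀ b11)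
    linarith [h1.2.trans hET]
  -- the bad residues in a class
  have hw0 : ∀ b m, 0 ≤ ww q H b m := fun b m => by unfold ww; split_ifs <;> norm_num
  have hHlog : (H : ℝ) ≤ Real.log q := by linarith
  have hCM0 : Pool.Agent.H474R2.GE.Mert (fun p => (p : ℝ)) (PP H z) H z C6 := by
    intro a b ha hab hb
    have h1 := hmert H z 0 (by omega) a b ha hab hb
    rw [hPe] at h1
    exact h1.trans (by rw [hC6]; linarith)
  have hgood : ∀ b ∈ G, ∀ S : Finset ℕ, (∀ n ∈ S, n < q ∧ n.Coprime q ∧ z < n ∧ n % Q = b ∧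
      ∀ i, ∃ k ∈ A i, (n + k * q).Prime) → (S.card : ℝ) ≤ ε' * AA q H := by
    intro b hb S hS
    have hbG := hGR hb
    obtain ⟨φ, hφ, hfφ⟩ := hGgood b hb
    have hmain := hX0 q b1 H z z (hKK'.trans b3) hHlog rfl rfl (PP H z)
      (fun i => (A (φ i)).filter (fun k => Nat.Coprime (b + k * q) Q))
      (fun p k => {rr q p k}) (fun p => (p : ℝ)) (kap q) (ee q) (ww q H b) q (AA q H)
      (fun _ => (2 : ℝ) ^ (DD q H).card)
      Subset.rfl hCM0 ?_ ?_ ?_ (fun j => LP1.hit q (PP H z) _ hPpos) (dens q H z) (hw0 b)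
      hAA0.le (equidQ q H z z b hq0 hbG) ?_ hET ?_
    · refine le_trans ?_ hmain
      have e1 : (S.card : ℝ) = ∑ m ∈ S, ww q H b m := by
        have e2 : ∀ m ∈ S, ww q H b m = 1 := by
          intro m hm
          obtain ⟨-, h2, -, h4, -⟩ := hS m hm
          unfold ww
          exact if_pos ⟨h4, h2⟩
        rw [Finset.sum_congr rfl e2, Finset.sum_const, nsmul_eq_mul, mul_one]
      rw [e1]
      refine Finset.sum_le_sum_of_subset_of_nonneg ?_ fun m _ _ => hw0 b m
      intro m hm
      obtain ⟨h1, h2, h3, h4, h5⟩ := hS m hm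
      rw [Finset.mem_filter, Finset.mem_range]
      refine ⟨h1, fun i => ?_⟩
      obtain ⟨k, hk, hkp⟩ := h5 (φ i)
      have hmod : m + k * q = (b + k * q) + Q * (m / Q) := by
        have h6 := Nat.mod_add_div m Q
        rw [h4] at h6
        omega
      refine ⟨k, Finset.mem_filter.2 ⟨hk, ?_⟩, ?_⟩
      · by_contra hco
        obtain ⟨p, hp, hpd⟩ := Nat.exists_prime_and_dvd hco
        have hp1 := hpd.trans (Nat.gcd_dvd_left _ _)
        have hp2 := hpd.trans (Nat.gcd_dvd_right _ _)
        have hp4 := Pool.Agent.H143R2.ACF.prime_dvd_primorial hp hp2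
        have hp5 : p ∣ m + k * q := by
          rw [hmod]
          exact dvd_add hp1 (hp2.mul_right _)
        rw [Nat.prime_dvd_prime_iff_eq hp hkp] at hp5
        have : m ≤ m + k * q := Nat.le_add_right _ _
        omega
      · intro p hp hmp
        rw [Finset.mem_singleton] at hmp
        by_cases hpq : p ∣ q
        · unfold rr at hmp
          rw [if_pos hpq] at hmp
          exact (coprime_iff q m hq0).1 h2 p
            (Nat.mem_primeFactors.2 ⟨PP_prime hp, hpq, hq0.ne'⟩) (Nat.dvd_of_mod_eq_zero hmp)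
        · have h6 := (rr_iff (PP_prime hp).pos hpq m k).1 hmp
          rw [Nat.prime_dvd_prime_iff_eq (PP_prime hp) hkp] at h6
          have h7 := PP_le hp
          have : m ≤ m + k * q := Nat.le_add_right _ _
          omega
    · intro p hp
      simp
    · intro i j hij
      exact Finset.disjoint_of_subset_left (Finset.filter_subset _ _)
        (Finset.disjoint_of_subset_right (Finset.filter_subset _ _)
          (hdisj (φ i) (φ j) fun h => hij (hφ h)))
    · intro i
      have h2 := hfφ i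
      refine h2.trans ?_
      have h3 : 2 * (C * Real.log q) / ε' = (2 * C / ε') * Real.log q := by ring
      rw [h3]
      apply mul_le_mul_of_nonneg_right _ hlog.le
      rw [hC6]
      linarith
    · intro U hU hUK
      rw [LP1.dl_eq]
      have hqC0 : (0 : ℝ) ≤ (q : ℝ) ^ C := by positivity
      refine (dlQ_le (N := ⌊(q : ℝ) ^ C⌋₊ + 1) (K := K) (k0 := 0) hq0 U (fun a ha => ?_) hUK
        (by omega)).trans ?_
      · refine ⟨Nat.zero_le _, ?_⟩
        have h2 := hU ha
        rw [Finset.mem_biUnion] at h2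
        obtain ⟨i, _, hi⟩ := h2
        have h3 := hAsize _ a (Finset.mem_filter.1 hi).1
        have h4 : a ≤ ⌊(q : ℝ) ^ C⌋₊ := Nat.le_floor h3
        omega
      · have hHl : 0 < (H : ℝ) * Real.log H := by
          have h1 : (1 : ℝ) < H := by exact_mod_cast (by omega : 1 < H)
          have := Real.log_pos h1
          positivity
        have hNN : Real.log ((⌊(q : ℝ) ^ C⌋₊ + 1 : ℕ) : ℝ) ≤ (C + 1) * Real.log q := by
          have h1 : ((⌊(q : ℝ) ^ C⌋₊ + 1 : ℕ) : ℝ) ≤ (q : ℝ) ^ (C + 1) := by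
            push_cast
            have h2 : (⌊(q : ℝ) ^ C⌋₊ : ℝ) ≤ (q : ℝ) ^ C := Nat.floor_le hqC0
            have h3 : (1 : ℝ) ≤ (q : ℝ) ^ C := Real.one_le_rpow hq1 (by linarith)
            have h4 : (2 : ℝ) ≤ q := by exact_mod_cast b2
            rw [Real.rpow_add hqr, Real.rpow_one]
            nlinarith
          calc Real.log ((⌊(q : ℝ) ^ C⌋₊ + 1 : ℕ) : ℝ) ≤ Real.log ((q : ℝ) ^ (C + 1)) :=
                Real.log_le_log (by positivity) h1
            _ = _ := Real.log_rpow hqr _
        have hKinv : 1 / (K' : ℝ) ≤ 1 / (K : ℝ) := by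
          apply one_div_le_one_div_of_le
          · exact_mod_cast (by omega : 0 < K)
          · exact_mod_cast hKK'
        refine le_trans ?_ (b7.trans hKinv)
        refine add_le_add le_rfl (add_le_add ?_ le_rfl)
        have ht0 : 0 ≤ Real.log q / (H * Real.log H) := by positivity
        calc (K : ℝ) ^ 2 * (Real.log ((⌊(q : ℝ) ^ C⌋₊ + 1 : ℕ) : ℝ) / (H * Real.log H))
            ≤ (K : ℝ) ^ 2 * (((C + 1) * Real.log q) / (H * Real.log H)) := by gcongr
          _ = ((K : ℝ) ^ 2 * (C + 1)) * (Real.log q / (H * Real.log H)) := by ring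
          _ ≤ _ := mul_le_mul_of_nonneg_right hK'C ht0
    · intro m hm hw i k hk
      left
      simp only [Finset.mem_singleton]
      exact hsizeQ q H k 1 z b C _ b2 hC1 (by rw [hC6]; linarith)
        (hAsize _ k (Finset.mem_filter.1 hk).1) hq0 m k hm hw (by omega)
  have hbadc : ∀ b ∈ G0 q H \ G, ∀ S : Finset ℕ, (∀ n ∈ S, n < q ∧ n.Coprime q ∧ n % Q = b) →
      (S.card : ℝ) ≤ 2 * AA q H := by
    intro b hb S hS
    refine le_trans ?_ (htotal b (Finset.mem_sdiff.1 hb).1)
    have e1 : (S.card : ℝ) = ∑ m ∈ S, ww q H b m := by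
      have e2 : ∀ m ∈ S, ww q H b m = 1 := by
        intro m hm
        obtain ⟨-, h2, h4⟩ := hS m hm
        unfold ww
        exact if_pos ⟨h4, h2⟩
      rw [Finset.sum_congr rfl e2, Finset.sum_const, nsmul_eq_mul, mul_one]
    rw [e1]
    refine Finset.sum_le_sum_of_subset_of_nonneg ?_ fun m _ _ => hw0 b m
    intro m hm
    exact Finset.mem_range.2 (hS m hm).1
  -- the final count
  have hmass := mass_eq q H hq0
  have hphi0 : (0 : ℝ) ≤ q.totient := Nat.cast_nonneg _
  have hfinal : ∀ S : Finset ℕ, (∀ n ∈ S, n < q ∧ n.Coprime q ∧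
      ∀ i, ∃ k ∈ A i, (n + k * q).Prime) → (S.card : ℝ) ≤ ε0 * q.totient := by
    intro S hS
    have h1 : S.card ≤ (z + 1) + ∑ b ∈ G0 q H, ((S.filter (fun n => z < n)).filter
        (fun n => n % Q = b)).card := by
      have h2 : S ⊆ range (z + 1) ∪ (G0 q H).biUnion (fun b => (S.filter (fun n => z < n)).filter
        (fun n => n % Q = b)) := by
        intro n hn
        obtain ⟨hn1, hn2, -⟩ := hS n hn
        rw [Finset.mem_union]
        by_cases hnz : n ≤ z
        · left
          rw [Finset.mem_range]; omega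
        · right
          rw [Finset.mem_biUnion]
          refine ⟨n % Q, ?_, ?_⟩
          · unfold G0
            rw [Finset.mem_filter, Finset.mem_range]
            refine ⟨Nat.mod_lt _ hQ0, fun p hp hpn => ?_⟩
            have hpp := Nat.prime_of_mem_primeFactors (Finset.mem_filter.1 hp).1
            have h3 : p ∣ Q := (Nat.Prime.dvd_primorial_iff hpp).2 (Finset.mem_filter.1 hp).2
            exact (coprime_iff q n hq0).1 hn2 p (Finset.mem_filter.1 hp).1
              ((Nat.dvd_mod_iff h3).1 hpn)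
          · rw [Finset.mem_filter, Finset.mem_filter]
            exact ⟨⟨hn, by omega⟩, rfl⟩
      refine (Finset.card_le_card h2).trans ((Finset.card_union_le _ _).trans ?_)
      rw [Finset.card_range]
      exact Nat.add_le_add_left Finset.card_biUnion_le _
    have h2 : (S.card : ℝ) ≤ ((z : ℝ) + 1) + ∑ b ∈ G0 q H, (((S.filter (fun n => z < n)).filter
        (fun n => n % Q = b)).card : ℝ) := by exact_mod_cast h1
    have h3 : ∑ b ∈ G0 q H, (((S.filter (fun n => z < n)).filter
        (fun n => n % Q = b)).card : ℝ) ≤ 3 * ε' * q.totient := by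
      rw [← Finset.sum_sdiff hGR]
      have h4 : ∑ b ∈ G0 q H \ G, (((S.filter (fun n => z < n)).filter
          (fun n => n % Q = b)).card : ℝ) ≤ 2 * ε' * q.totient := by
        refine (Finset.sum_le_card_nsmul _ _ (2 * AA q H) fun b hb => hbadc b hb _ ?_).trans ?_
        · intro n hn
          rw [Finset.mem_filter, Finset.mem_filter] at hn
          exact ⟨(hS n hn.1.1).1, (hS n hn.1.1).2.1, hn.2⟩
        · rw [nsmul_eq_mul]
          calc ((G0 q H \ G).card : ℝ) * (2 * AA q H) ≤
                (ε' * (G0 q H).card) * (2 * AA q H) :=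
                mul_le_mul_of_nonneg_right hGcard (by positivity)
            _ = 2 * ε' * (((G0 q H).card : ℝ) * AA q H) := by ring
            _ = _ := by rw [hmass]
      have h5 : ∑ b ∈ G, (((S.filter (fun n => z < n)).filter
          (fun n => n % Q = b)).card : ℝ) ≤ ε' * q.totient := by
        refine (Finset.sum_le_card_nsmul _ _ (ε' * AA q H) fun b hb => hgood b hb _ ?_).trans ?_
        · intro n hn
          rw [Finset.mem_filter, Finset.mem_filter] at hn
          exact ⟨(hS n hn.1.1).1, (hS n hn.1.1).2.1, hn.1.2, hn.2, (hS n hn.1.1).2.2⟩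
        · rw [nsmul_eq_mul]
          have h6 : (G.card : ℝ) ≤ ((G0 q H).card : ℝ) := by
            exact_mod_cast Finset.card_le_card hGR
          calc (G.card : ℝ) * (ε' * AA q H) ≤ ((G0 q H).card : ℝ) * (ε' * AA q H) :=
                mul_le_mul_of_nonneg_right h6 (by positivity)
            _ = ε' * (((G0 q H).card : ℝ) * AA q H) := by ring
            _ = _ := by rw [hmass]
      linarith
    have h7 : (z : ℝ) + 1 ≤ ε' * (q.totient : ℝ) := by
      refine b9.trans ?_
      have h8 : 4 * ε' / 4 = ε' := by ring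
      rw [h8]
      refine mul_le_mul_of_nonneg_left ?_ hε'.le
      rw [← hmass]
      have hR1 : (1 : ℝ) ≤ ((G0 q H).card : ℝ) := by
        have h5 : 1 ≤ (primorial H).totient := Nat.totient_pos.2 (primorial_pos _)
        exact_mod_cast h5.trans (totient_le_G0 q H)
      calc (q : ℝ) / Q / 2 ≤ AA q H := hAA
        _ = 1 * AA q H := (one_mul _).symm
        _ ≤ ((G0 q H).card : ℝ) * AA q H := mul_le_mul_of_nonneg_right hR1 hAA0.le
    have h9 : ε' * (q.totient : ℝ) + 3 * ε' * q.totient ≤ ε0 * q.totient := by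
      rw [hε'def]
      have : 0 ≤ ε0 * (q.totient : ℝ) := by positivity
      nlinarith
    linarith
  refine hfinal _ ?_
  intro n hn
  rw [Finset.mem_filter, Finset.mem_range] at hn
  exact hn

end Pool.Agent.H474R4.LP
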