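import Pool.Agent.H474R4.LP.Iface

/-!
LP2: from one of `J0` sets to a positive proportion of `J` sets
-/

set_option autoImplicit false

open Finset

namespace Pool.Agent.H474R4.LP

namespace LP2

open Classical in
/-- double counting -/
theorem dc {L : ℕ} (D : Finset ℕ) (badL : Fin L → Finset ℕ)
    (t M : ℝ) (hM : ∀ l, ((badL l).card : ℝ) ≤ M)
    (ht : ∀ b ∈ D, t ≤ (((univ : Finset (Fin L)).filter (fun l => b ∈ badL l)).card : ℝ)) :
    (D.card : ℝ) * t ≤ L * M := by
  have h1 : (D.card : ℝ) * t ≤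
      ∑ b ∈ D, (((univ : Finset (Fin L)).filter (fun l => b ∈ badL l)).card : ℝ) := by
    rw [← nsmul_eq_mul]
    exact Finset.card_nsmul_le_sum D _ t ht
  have h2 : ∑ b ∈ D, (((univ : Finset (Fin L)).filter (fun l => b ∈ badL l)).card : ℝ) =
      ∑ l : Fin L, ((D.filter (fun b => b ∈ badL l)).card : ℝ) := by
    have h3 : ∑ b ∈ D, (((univ : Finset (Fin L)).filter (fun l => b ∈ badL l)).card) =
        ∑ l : Fin L, ((D.filter (fun b => b ∈ badL l)).card) := by
      simp only [Finset.card_filter]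
      exact Finset.sum_comm
    exact_mod_cast h3
  rw [h2] at h1
  refine h1.trans ?_
  calc ∑ l : Fin L, ((D.filter (fun b => b ∈ badL l)).card : ℝ) ≤ ∑ l : Fin L, M := by
        apply Finset.sum_le_sum
        intro l _
        refine le_trans ?_ (hM l)
        have h4 : D.filter (fun b => b ∈ badL l) ⊆ badL l := by
          intro b hb
          exact (Finset.mem_filter.1 hb).2
        exact_mod_cast Finset.card_le_card h4
    _ = L * M := by simp

open Classical in
/-- groups -/
theorem grp {J J0 L : ℕ} (hJ0 : 1 ≤ J0) (P : Fin J → Prop) [DecidablePred P] :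
    ((univ : Finset (Fin L)).filter (fun l => ∃ i : Fin J0, ∃ h : l.1 * J0 + i.1 < J,
      P ⟨l.1 * J0 + i.1, h⟩)).card ≤ ((univ : Finset (Fin J)).filter (fun i => P i)).card := by
  have h1 : (((univ : Finset (Fin L)).filter (fun l => ∃ i : Fin J0, ∃ h : l.1 * J0 + i.1 < J,
      P ⟨l.1 * J0 + i.1, h⟩)).image (fun l => l.1)) ⊆
      ((univ : Finset (Fin J)).filter (fun i => P i)).image (fun i => i.1 / J0) := by
    intro x hx
    rw [Finset.mem_image] at hx ⊢
    obtain ⟨l, hl, rfl⟩ := hx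
    obtain ⟨i, h, hP⟩ := (Finset.mem_filter.1 hl).2
    refine ⟨⟨l.1 * J0 + i.1, h⟩, Finset.mem_filter.2 ⟨Finset.mem_univ _, hP⟩, ?_⟩
    show (l.1 * J0 + i.1) / J0 = l.1
    rw [Nat.add_comm, Nat.add_mul_div_right _ _ hJ0, Nat.div_eq_of_lt i.2, zero_add]
  have h2 := Finset.card_le_card h1
  rw [Finset.card_image_of_injective _ Fin.val_injective] at h2
  exact h2.trans Finset.card_image_le

end LP2

open Classical in
/-- LP2, file Dens.lean -/
theorem lpDens_of (h : LPCore) : LPDens := by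
  intro C ε hε
  obtain ⟨J0, hJ0, q₀, hcore⟩ := h C (ε / 4) (by positivity)
  have hJ0r : (1 : ℝ) ≤ (J0 : ℝ) := by exact_mod_cast hJ0
  refine ⟨1 / (4 * J0), by positivity, 2 * J0, ?_⟩
  intro J hJ
  refine ⟨q₀, ?_⟩
  intro q hq A hdis hsize hcard
  obtain ⟨L, hLdef⟩ : ∃ L, L = J / J0 := ⟨_, rfl⟩
  have hL1 : L * J0 ≤ J := by rw [hLdef]; exact Nat.div_mul_le_self J J0
  have hL2 : 2 ≤ L := by
    rw [hLdef]
    exact (Nat.le_div_iff_mul_le hJ0).2 hJ
  have hL3 : J ≤ 2 * L * J0 := by
    have h1 : J < (L + 1) * J0 := by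
      rw [hLdef]
      have := Nat.lt_div_mul_add (a := J) (b := J0) hJ0
      nlinarith
    have h2 : (L + 1) * J0 ≤ 2 * L * J0 := Nat.mul_le_mul_right J0 (by omega)
    omega
  have hidx : ∀ (l : Fin L) (i : Fin J0), l.1 * J0 + i.1 < J := by
    intro l i
    have h1 : (l.1 + 1) * J0 ≤ L * J0 := Nat.mul_le_mul_right J0 l.2
    have h2 := i.2
    have h3 : (l.1 + 1) * J0 = l.1 * J0 + J0 := by ring
    omega
  let B : Fin L → Fin J0 → Finset ℕ := fun l i => A ⟨l.1 * J0 + i.1, hidx l i⟩
  have hB : ∀ l i, B l i = A ⟨l.1 * J0 + i.1, hidx l i⟩ := fun _ _ => rfl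
  let badL : Fin L → Finset ℕ := fun l =>
    (range q).filter (fun b : ℕ => b.Coprime q ∧ ∀ i, ∃ k ∈ B l i, (b + k * q).Prime)
  have hbad : ∀ l, ((badL l).card : ℝ) ≤ ε / 4 * q.totient := by
    intro l
    apply hcore q hq (B l)
    · intro i j hij
      apply hdis
      intro h1
      apply hij
      have h2 : l.1 * J0 + i.1 = l.1 * J0 + j.1 := congrArg Fin.val h1
      apply Fin.ext
      omega
    · intro i
      exact hsize _
    · intro i
      exact hcard _
  obtain ⟨D, hDdef⟩ : ∃ D, D = (range q).filter (fun b : ℕ => b.Coprime q ∧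
    (((univ : Finset (Fin J)).filter (fun i => ∀ k ∈ A i, ¬ (b + k * q).Prime)).card : ℝ) <
      1 / (4 * J0) * J) := ⟨_, rfl⟩
  rw [← hDdef]
  have hkey : ∀ b ∈ D,
      (L : ℝ) / 2 ≤ (((univ : Finset (Fin L)).filter (fun l => b ∈ badL l)).card : ℝ) := by
    intro b hb
    rw [hDdef, Finset.mem_filter] at hb
    obtain ⟨hbq, hbc, hbf⟩ := hb
    have h1 := Finset.card_filter_add_card_filter_not (s := (univ : Finset (Fin L)))
      (fun l => b ∈ badL l)
    rw [Finset.card_univ, Fintype.card_fin] at h1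
    have h2 : ((univ : Finset (Fin L)).filter (fun l => ¬ b ∈ badL l)).card ≤
        ((univ : Finset (Fin J)).filter (fun i => ∀ k ∈ A i, ¬ (b + k * q).Prime)).card := by
      refine le_trans (Finset.card_le_card ?_)
        (LP2.grp (L := L) hJ0 (fun i => ∀ k ∈ A i, ¬ (b + k * q).Prime))
      intro l hl
      rw [Finset.mem_filter] at hl ⊢
      refine ⟨hl.1, ?_⟩
      by_contra hcon
      apply hl.2
      refine Finset.mem_filter.2 ⟨hbq, hbc, ?_⟩
      intro i
      by_contra hcon2
      apply hcon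
      refine ⟨i, hidx l i, ?_⟩
      intro k hk hprime
      exact hcon2 ⟨k, hk, hprime⟩
    have h3 : (1 : ℝ) / (4 * J0) * J ≤ L / 2 := by
      rw [div_mul_eq_mul_div, one_mul, div_le_iff₀ (by positivity)]
      have : (J : ℝ) ≤ 2 * L * J0 := by exact_mod_cast hL3
      linarith
    have h4 : (((univ : Finset (Fin L)).filter (fun l => ¬ b ∈ badL l)).card : ℝ) ≤ L / 2 := by
      have h5 : (((univ : Finset (Fin L)).filter (fun l => ¬ b ∈ badL l)).card : ℝ) ≤
          (((univ : Finset (Fin J)).filter (fun i => ∀ k ∈ A i, ¬ (b + k * q).Prime)).card : ℝ) := by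
        exact_mod_cast h2
      linarith
    have h6 : (((univ : Finset (Fin L)).filter (fun l => b ∈ badL l)).card : ℝ) +
        (((univ : Finset (Fin L)).filter (fun l => ¬ b ∈ badL l)).card : ℝ) = L := by
      exact_mod_cast h1
    linarith
  have hfin := LP2.dc D badL ((L : ℝ) / 2) _ hbad hkey
  have hLr : (0 : ℝ) < L := by
    have : 0 < L := by omega
    exact_mod_cast this
  have h7 : (D.card : ℝ) ≤ ε / 2 * q.totient := by
    by_contra hcon
    push Not at hcon
    have h8 : (ε / 2 * q.totient) * (L / 2) < (D.card : ℝ) * (L / 2) :=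
      mul_lt_mul_of_pos_right hcon (by positivity)
    nlinarith
  have h9 : (0 : ℝ) ≤ ε * q.totient := by positivity
  linarith

end Pool.Agent.H474R4.LP
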