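import Pool.Agent.H474R4.LP.Core
import Pool.Agent.H474R4.LP.Dens
import Pool.Agent.H474R3.AA.Main
import Pool.Agent.H474R3.AA.ClassMarkov

set_option autoImplicit false

namespace Pool.Agent.H474R4.LP

theorem lpDens : LPDens :=
  lpDens_of (lpCore_of Pool.Agent.H474R3.AA.coreAA Pool.Agent.H474R3.AA.classMarkov)

end Pool.Agent.H474R4.LP
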