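import Pool.Agent.H474R4.LP.Iface

set_option autoImplicit false

namespace Pool.Agent.H474R4.LP

/-- LP1, file Core.lean -/
theorem lpCore_of (hcore : Pool.Agent.H474R3.AA.CoreAA) (hCM : Pool.Agent.H474R3.AA.ClassMarkov) :
    LPCore := by sorry

/-- LP2, file Dens.lean -/
theorem lpDens_of (h : LPCore) : LPDens := by sorry

end Pool.Agent.H474R4.LP
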